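import Pool.Agent.H44.KWTwo

open MeasureTheory Pool.Agent.H44.KW

namespace Pool.Agent.Results.MP_97409a_pr.Counter

/-- A GI/GI/2 queue with `1 - 1/k ≤ ρ < 1` that violates the conjectured lower bound. -/
theorem result : ∃ (k : ℕ) (hk : 2 ≤ k) (μS μT : Measure ℝ) (ES ET ES2 ρ : ℝ),
    IsProbabilityMeasure μS ∧ IsProbabilityMeasure μT ∧
    (∀ᵐ s ∂μS, 0 < s) ∧ (∀ᵐ t ∂μT, 0 < t) ∧ MemLp id 2 μS ∧ MemLp id 2 μT ∧
    ES = ∫ s, s ∂μS ∧ ET = ∫ t, t ∂μT ∧ ES2 = ∫ s, s ^ 2 ∂μS ∧ ρ = ES / (k * ET) ∧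
    1 - (k : ℝ)⁻¹ < ρ ∧ ρ < 1 ∧
    (∃ π : Measure (Fin k → ℝ), IsStationary μS μT π) ∧
    ∀ π : Measure (Fin k → ℝ), IsStationary μS μT π →
      Integrable (fun w => w ⟨0, by omega⟩) π ∧
      2 * (k : ℝ) ^ 2 * ρ * (1 - ρ) * ET * ∫ w, w ⟨0, by omega⟩ ∂π <
        (1 - k * (1 - ρ)) * max (ES2 - (2 * k - 1) * ES * ET + k * (k - 1) * ET ^ 2) 0 := by
  refine ⟨2, le_rfl, muS, muT, 5 / 4, 9 / 8, 17 / 8, 5 / 9, inferInstance, inferInstance,
    ae_coin (by norm_num) (by norm_num), ae_coin (by norm_num) (by norm_num),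
    memLp_coin _ _, memLp_coin _ _, ?_, ?_, ?_, by norm_num, by norm_num, by norm_num,
    exists_stationary, fun π hπ => ?_⟩
  · unfold muS; rw [integral_coin]; norm_num
  · unfold muT; rw [integral_coin]; norm_num
  · unfold muS; rw [integral_coin]; norm_num
  · have h : (fun w : Fin 2 → ℝ => w ⟨0, by omega⟩) =ᵐ[π] fun _ => 0 := stationary_wait hπ
    refine ⟨(integrable_zero _ _ _).congr h.symm, ?_⟩
    rw [integral_congr_ae h]
    norm_num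

end Pool.Agent.Results.MP_97409a_pr.Counter
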